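import Mathlib
import Pool.Agent.N870.EC.Stm
import Pool.Agent.TH841.NO.Tkl
import Pool.Agent.TH841.NO.Cntu
import Pool.Agent.TH841.PT.GDP

/-!
# EC/MER1: the theorem of Mertens for the split roots of one polynomial
-/

set_option autoImplicit false

namespace Pool.Agent.N265.EC

open Finset Polynomial

open Pool.Agent.W262.RK (PS)
open Pool.Agent.H474R2.PG (rho)
open Pool.Agent.TH841.TR (SqM)
open Pool.Agent.N870.EC (gm S_MER1)
open Pool.Agent.TH841.PM.BADf (SS Rt card_Rt)
open Pool.Agent.TH841.LS.TKXf (rc)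

/-- no common root modulo large primes -/
lemma no_common {f w : ℤ[X]} (hf : Irreducible f) (hd : 0 < f.natDegree) (h : ¬ f ∣ w) :
    ∃ z1 : ℕ, ∀ p : ℕ, p.Prime → z1 < p → ∀ x : ℤ, (p : ℤ) ∣ f.eval x → ¬ (p : ℤ) ∣ w.eval x := by
  have hprim : f.IsPrimitive := hf.isPrimitive (by omega)
  have hirr : Irreducible (f.map (Int.castRingHom ℚ)) :=
    (Polynomial.IsPrimitive.Int.irreducible_iff_irreducible_map_cast hprim).1 hf
  have hcop : IsCoprime (f.map (Int.castRingHom ℚ)) (w.map (Int.castRingHom ℚ)) := by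
    rw [hirr.coprime_iff_not_dvd]
    intro h1
    apply h
    exact (Polynomial.IsPrimitive.Int.dvd_iff_map_cast_dvd_map_cast f w hprim).2 h1
  obtain ⟨U, V, R, hR, hUV⟩ := Pool.Agent.TH841.PT.GDPf.bezout hcop
  refine ⟨R.natAbs, fun p hp hz x h1 h2 => ?_⟩
  have h3 : U.eval x * f.eval x + V.eval x * w.eval x = R := by
    have := congrArg (Polynomial.eval x) hUV
    simpa using this
  have h4 : (p : ℤ) ∣ R := by
    rw [← h3]
    exact dvd_add (h1.mul_left _) (h2.mul_left _)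
  have h5 := Int.natAbs_dvd_natAbs.2 h4
  rw [Int.natAbs_natCast] at h5
  have h6 := Nat.le_of_dvd (Int.natAbs_pos.2 hR) h5
  omega

lemma gm_le (f w : ℤ[X]) (p : ℕ) : gm f w p ≤ rho f p := by
  unfold gm rho
  apply card_le_card
  intro x hx
  rw [mem_filter] at hx ⊢
  exact ⟨hx.1, hx.2.1⟩

/-- all symbols are `1` -/
lemma gm_eq {f w : ℤ[X]} {p : ℕ}
    (h : ∀ x : ℤ, (p : ℤ) ∣ f.eval x → jacobiSym (w.eval x) p = 1) : gm f w p = rho f p := by
  unfold gm rho
  congr 1
  apply filter_congr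
  intro x _
  exact ⟨fun hx => hx.1, fun hx => ⟨hx, h _ hx⟩⟩

/-- all symbols are `1` or `-1` -/
lemma gm_two {f w : ℤ[X]} {p : ℕ}
    (h : ∀ x : ℤ, (p : ℤ) ∣ f.eval x → jacobiSym (w.eval x) p = 1 ∨ jacobiSym (w.eval x) p = -1) :
    (rho f p : ℝ) + rc f w p = 2 * gm f w p := by
  classical
  have h1 : (rho f p : ℝ) + rc f w p = ∑ a ∈ Rt f p,
      (1 + (jacobiSym (w.eval (a : ℤ)) p : ℝ)) := by
    rw [sum_add_distrib, sum_const, nsmul_eq_mul, mul_one, card_Rt]
    rfl
  have h2 : ∀ a ∈ Rt f p, (1 + (jacobiSym (w.eval (a : ℤ)) p : ℝ)) =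
      if jacobiSym (w.eval (a : ℤ)) p = 1 then (2 : ℝ) else 0 := by
    intro a ha
    unfold Rt at ha
    rw [mem_filter] at ha
    rcases h a ha.2 with h3 | h3
    · rw [if_pos h3, h3]; norm_num
    · rw [if_neg (by rw [h3]; decide), h3]; norm_num
  rw [h1, sum_congr rfl h2, ← sum_filter, sum_const, nsmul_eq_mul, mul_comm]
  congr 2
  unfold gm Rt
  rw [filter_filter]

theorem t_MER1 : S_MER1 := by
  intro f w hf hd hfw
  classical
  obtain ⟨z1, hz1⟩ := no_common hf hd hfw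
  by_cases hsq : SqM f w
  · obtain ⟨D, q, g, hD, hq⟩ := Pool.Agent.TH841.NO.CNTUf.sqmod_int hsq
    refine ⟨z1 + D.natAbs + 3, fun z hz => ?_⟩
    obtain ⟨C0, hC0, hC⟩ := Pool.Agent.TH841.NO.TKLf.mert hf hd (z := z) (by omega)
    refine ⟨C0, fun y hy => ?_⟩
    rw [if_pos hsq, one_mul]
    have h1 : SS f z y = ∑ p ∈ PS z y, (gm f w p : ℝ) / p := by
      unfold SS
      refine sum_congr rfl fun p hp => ?_
      unfold PS at hp
      rw [mem_filter, mem_Ioc] at hp
      rw [gm_eq]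
      intro x hx
      refine Pool.Agent.TH841.NO.CNTUf.jac_one hq hp.2 ?_ hx (hz1 p hp.2 (by omega) x hx)
      intro h2
      have h3 := Int.natAbs_dvd_natAbs.2 h2
      rw [Int.natAbs_natCast] at h3
      have h4 := Nat.le_of_dvd (Int.natAbs_pos.2 hD) h3
      omega
    have h2 := (abs_le.1 (hC y hy)).1
    rw [← h1]
    linarith
  · obtain ⟨g, hg, hgd, z2, hz2⟩ := Pool.Agent.TH626.TKL.ext f w hf hd
      (fun q hq => hsq ⟨q, hq⟩)
    refine ⟨z1 + z2 + 3, fun z hz => ?_⟩
    obtain ⟨C0, hC0, hC⟩ := Pool.Agent.TH841.NO.TKLf.mert hg hgd (z := z) (by omega)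
    refine ⟨C0, fun y hy => ?_⟩
    rw [if_neg hsq]
    have h1 : SS g z y / 2 ≤ ∑ p ∈ PS z y, (gm f w p : ℝ) / p := by
      unfold SS
      rw [sum_div]
      refine sum_le_sum fun p hp => ?_
      unfold PS at hp
      rw [mem_filter, mem_Ioc] at hp
      have h2 := hz2 p hp.2 (by omega)
      rw [gm_two] at h2
      · rw [div_div, mul_comm (p : ℝ) 2, ← div_div]
        refine div_le_div_of_nonneg_right (by linarith) (Nat.cast_nonneg _)
      · intro x hx
        rcases jacobiSym.trichotomy (w.eval x) p with h3 | h3 | h3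
        · exfalso
          have : NeZero p := ⟨hp.2.ne_zero⟩
          rw [jacobiSym.eq_zero_iff_not_coprime] at h3
          apply h3
          rw [← Int.isCoprime_iff_gcd_eq_one]
          exact (((Nat.prime_iff_prime_int.1 hp.2).coprime_iff_not_dvd).2
            (hz1 p hp.2 (by omega) x hx)).symm
        · exact Or.inl h3
        · exact Or.inr h3
    have h2 := (abs_le.1 (hC y hy)).1
    linarith

end Pool.Agent.N265.EC
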